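import Pool.Agent.H51.MO.TargetsA

/-!
# Monotone circuits of any depth for k-SAT: the final step
-/

namespace Pool.Agent.H36.MO

open Finset
open Pool.Agent.H1.LP (Clause viol)
open Pool.Agent.H51.MO

lemma hardA_mono {k : ℕ} {ε α α' : ℝ} (h : α ≤ α') (hA : HardA k ε α') : HardA k ε α := by
  obtain ⟨K, n₀, hK⟩ := hA
  refine ⟨K, max n₀ 1, fun n hn => ?_⟩
  have hn1 : (1 : ℝ) ≤ n := by exact_mod_cast (le_max_right n₀ 1).trans hn
  have hle : (n : ℝ) ^ α ≤ (n : ℝ) ^ α' := Real.rpow_le_rpow_of_exponent_le hn1 h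
  obtain ⟨Y, m, phi, hY, h1, h2⟩ := hK n ((le_max_left n₀ 1).trans hn)
  refine ⟨Y, m, phi, hY, h1, fun C hC hacc => ?_⟩
  have h3 : (2 : ℝ) ^ (-((n : ℝ) ^ α')) ≤ (2 : ℝ) ^ (-((n : ℝ) ^ α)) :=
    Real.rpow_le_rpow_of_exponent_le (by norm_num) (by linarith)
  have h4 := h2 C hC (lt_of_le_of_lt (mul_le_mul_of_nonneg_right h3 (Nat.cast_nonneg Y)) hacc)
  exact (Real.rpow_le_rpow_of_exponent_le (by norm_num) hle).trans h4

theorem pf_AFIN : S_AFIN := by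
  intro hcore hfar hpar
  have main : ∀ (ε : ℝ) (k : ℕ) (α : ℝ), 0 < ε → 3 ≤ k → 0 < α → α < ((k : ℝ) - 2) / (k + 4) →
      HardA k ε α := by
    intro ε k α hε hk hα0 hα
    obtain ⟨K0, hK0, hF⟩ := hfar ε hε
    obtain ⟨n₀, hn₀⟩ := hpar k K0 α hk hK0 hα0 hα
    refine ⟨K0 * 2 ^ (k - 1), n₀, fun n hn => ?_⟩
    obtain ⟨b, q, w, m, β, e, T, th, hm, hb, hkb, hkw, hth, hq, hβ, he, he1, hew, hme, hmb, hT,
      hTj, hfin1, hfin2⟩ := hn₀ n hn
    have hk1 : 1 ≤ k := by omega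
    have hm1 : 1 ≤ m := by
      rw [hm]
      exact Nat.mul_pos hK0 (Nat.mul_pos hk1 hb)
    have hF' := hF k b m hk1 hb hm.ge
    obtain ⟨Y, phi, hY, hYle, hprop, hC⟩ := hcore n k b m q w ε β e T th hk1 hb hkb hm1 hkw hth
      hq hβ he he1 hew hme hmb hT hTj hF'
    refine ⟨Y, fun _ => m * 2 ^ (k - 1), phi, hY, fun a => ⟨?_, ?_, (hprop a).1, ?_⟩, ?_⟩
    · exact Nat.mul_pos hm1 (by positivity)
    · rw [hm]
      calc K0 * (k * b) * 2 ^ (k - 1) ≤ K0 * n * 2 ^ (k - 1) := by gcongr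
        _ = K0 * 2 ^ (k - 1) * n := by ring
    · exact (hprop a).2
    · intro C hS hacc
      by_contra hlt
      rw [not_le] at hlt
      rcases hC C hS with h | h
      · have h1 : (C.size : ℝ) * T ≤ (2 : ℝ) ^ ((n : ℝ) ^ α) * T :=
          mul_le_mul_of_nonneg_right hlt.le hT.le
        have hp : (0 : ℝ) < (2 : ℝ) ^ (-((n : ℝ) ^ α)) := by positivity
        have h2 := mul_le_mul_of_nonneg_left hYle hp.le
        linarith
      · have hpos : (0 : ℝ) < (1 + m * (2 * (b : ℝ) ^ k)) ^ w * th := by positivity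
        have h1 : (2 : ℝ) ^ w * ((C.size : ℝ) * ((1 + m * (2 * (b : ℝ) ^ k)) ^ w * th)) <
            2 ^ w * ((2 : ℝ) ^ ((n : ℝ) ^ α) * ((1 + m * (2 * (b : ℝ) ^ k)) ^ w * th)) :=
          mul_lt_mul_of_pos_left (mul_lt_mul_of_pos_right hlt hpos) (by positivity)
        exact absurd (h.trans_lt h1) (not_lt.2 hfin2)
  intro ε k α hε hk hα
  rcases lt_or_ge 0 α with h0 | h0
  · exact main ε k α hε hk h0 hα
  · have hk3 : (3 : ℝ) ≤ k := by exact_mod_cast hk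
    have hpos : (0 : ℝ) < ((k : ℝ) - 2) / (k + 4) := div_pos (by linarith) (by linarith)
    exact hardA_mono (by linarith) (main ε k (((k : ℝ) - 2) / (k + 4) / 2) hε hk
      (by linarith) (by linarith))

end Pool.Agent.H36.MO
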